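import Pool.Agent.R537.LR.Stm

/-!
# Low-rank approximation, `p = 1`: mask sums via the norm bound (piece NOE)
-/

set_option autoImplicit false

namespace Pool.Agent.NPC.R537LR

/-- Extension by zero. -/
def noeX {m : ℕ} (u : Fin m → ℝ) (n : ℕ) : ℝ := if h : n < m then u ⟨n, h⟩ else 0

theorem noeX_val {m : ℕ} (u : Fin m → ℝ) (a : Fin m) : noeX u (a : ℕ) = u a := by
  unfold noeX
  rw [dif_pos a.2]

theorem noe_norm {m : ℕ} {H : ℕ → ℕ → ℝ} (hH : GoodH m H) (u v : Fin m → ℝ) :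
    |∑ a : Fin m, ∑ b : Fin m, H a b * u a * v b| ≤
      √(2 * m) * √(∑ a, u a ^ 2) * √(∑ b, v b ^ 2) := by
  have h := hH.nrm (noeX u) (noeX v)
  rw [Finset.sum_range, Finset.sum_range, Finset.sum_range] at h
  have e1 : ∀ a : Fin m, ∑ b ∈ Finset.range m, H (a : ℕ) b * noeX u (a : ℕ) * noeX v b =
      ∑ b : Fin m, H a b * u a * v b := by
    intro a
    rw [Finset.sum_range]
    simp only [noeX_val]
  rw [Finset.sum_congr rfl (fun a _ => e1 a)] at h
  simp only [noeX_val] at h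
  exact h

theorem noe_sq {m : ℕ} (u : Fin m → ℝ) (hu : ∀ a, |u a| ≤ 4) :
    ∑ a, u a ^ 2 ≤ 4 * ∑ a, |u a| := by
  rw [Finset.mul_sum]
  apply Finset.sum_le_sum
  intro a _
  rw [← sq_abs]
  have := hu a
  have h0 := abs_nonneg (u a)
  nlinarith

theorem noe_amgm (A B : ℝ) (hA : 0 ≤ A) (hB : 0 ≤ B) : √(4 * A) * √(4 * B) ≤ 2 * (A + B) := by
  have h1 : 0 ≤ √(4 * A) := Real.sqrt_nonneg _
  have h2 : 0 ≤ √(4 * B) := Real.sqrt_nonneg _
  have h3 : √(4 * A) ^ 2 = 4 * A := Real.sq_sqrt (by positivity)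
  have h4 : √(4 * B) ^ 2 = 4 * B := Real.sq_sqrt (by positivity)
  nlinarith [sq_nonneg (√(4 * A) - √(4 * B))]

theorem noe_one {m : ℕ} {H : ℕ → ℕ → ℝ} (hH : GoodH m H) (u v : Fin m → ℝ)
    (hu : ∀ a, |u a| ≤ 4) (hv : ∀ b, |v b| ≤ 4) :
    |∑ a : Fin m, ∑ b : Fin m, H a b * u a * v b| ≤
      2 * √(2 * m) * (∑ a, |u a| + ∑ b, |v b|) := by
  have h := noe_norm hH u v
  have h1 : √(∑ a, u a ^ 2) ≤ √(4 * ∑ a, |u a|) := Real.sqrt_le_sqrt (noe_sq u hu)
  have h2 : √(∑ b, v b ^ 2) ≤ √(4 * ∑ b, |v b|) := Real.sqrt_le_sqrt (noe_sq v hv)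
  have hU : 0 ≤ ∑ a, |u a| := Finset.sum_nonneg fun a _ => abs_nonneg _
  have hV : 0 ≤ ∑ b, |v b| := Finset.sum_nonneg fun a _ => abs_nonneg _
  have h3 := noe_amgm _ _ hU hV
  have h4 : √(∑ a, u a ^ 2) * √(∑ b, v b ^ 2) ≤ √(4 * ∑ a, |u a|) * √(4 * ∑ b, |v b|) :=
    mul_le_mul h1 h2 (Real.sqrt_nonneg _) (Real.sqrt_nonneg _)
  have h5 : 0 ≤ √(2 * (m : ℝ)) := Real.sqrt_nonneg _
  have h6 : √(2 * (m : ℝ)) * (√(∑ a, u a ^ 2) * √(∑ b, v b ^ 2)) ≤
      √(2 * (m : ℝ)) * (2 * (∑ a, |u a| + ∑ b, |v b|)) :=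
    mul_le_mul_of_nonneg_left (h4.trans h3) h5
  calc _ ≤ _ := h
    _ = √(2 * (m : ℝ)) * (√(∑ a, u a ^ 2) * √(∑ b, v b ^ 2)) := by ring
    _ ≤ _ := h6
    _ = _ := by ring

/-- subtracting constants does not change the sum (balanced matrix) -/
theorem noe_shift {m : ℕ} {H : ℕ → ℕ → ℝ} (hH : GoodH m H) (u v : Fin m → ℝ) (x y : ℝ) :
    ∑ a : Fin m, ∑ b : Fin m, H a b * (u a - x) * (v b - y) =
      ∑ a : Fin m, ∑ b : Fin m, H a b * u a * v b := by
  have hrow : ∀ a : Fin m, ∑ b : Fin m, H (a : ℕ) (b : ℕ) = 0 := by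
    intro a
    have := hH.row a a.2
    rwa [Finset.sum_range] at this
  have hcol : ∀ b : Fin m, ∑ a : Fin m, H (a : ℕ) (b : ℕ) = 0 := by
    intro b
    have := hH.col b b.2
    rwa [Finset.sum_range] at this
  have e : ∀ a b : Fin m, H (a : ℕ) (b : ℕ) * (u a - x) * (v b - y) =
      H a b * u a * v b - x * (H a b * v b) - (u a - x) * y * H a b := by
    intro a b; ring
  have e1 : ∑ a : Fin m, ∑ b : Fin m, x * (H a b * v b) = 0 := by
    rw [Finset.sum_comm]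
    apply Finset.sum_eq_zero
    intro b _
    rw [← Finset.mul_sum, ← Finset.sum_mul, hcol b]
    ring
  have e2 : ∑ a : Fin m, ∑ b : Fin m, (u a - x) * y * H a b = 0 := by
    apply Finset.sum_eq_zero
    intro a _
    rw [← Finset.mul_sum, hrow a]
    ring
  simp only [e, Finset.sum_sub_distrib, e1, e2]
  ring

theorem noe_mean {R : Type} {m : ℕ} (hm : 0 < m) (p : R → Fin m → Fin 3 → ℝ) (r : R)
    (s : Fin 3) (hp : ∀ a, |p r a s| ≤ 2) : |mean p r s| ≤ 2 := by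
  unfold mean
  have hm' : (0 : ℝ) < m := by exact_mod_cast hm
  rw [abs_div, abs_of_pos hm', div_le_iff₀ hm']
  calc |∑ a, p r a s| ≤ ∑ a, |p r a s| := Finset.abs_sum_le_sum_abs _ _
    _ ≤ ∑ _a : Fin m, (2 : ℝ) := Finset.sum_le_sum fun a _ => hp a
    _ = 2 * m := by
      rw [Finset.sum_const, Finset.card_univ, Fintype.card_fin, nsmul_eq_mul]; ring

theorem t_NOE : S_NOE := by
  intro R C _ _ _ _ P m H p l hH hm hB r c
  have hp : ∀ a s, |p r a s - mean p r s| ≤ 4 := by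
    intro a s
    have h1 := hB.p2 r a s
    have h2 := noe_mean hm p r s (fun a => hB.p2 r a s)
    calc |p r a s - mean p r s| ≤ |p r a s| + |mean p r s| := abs_sub _ _
      _ ≤ 4 := by linarith
  have hl : ∀ b s, |l c b s - mean l c s| ≤ 4 := by
    intro b s
    have h1 := hB.l2 c b s
    have h2 := noe_mean hm l c s (fun b => hB.l2 c b s)
    calc |l c b s - mean l c s| ≤ |l c b s| + |mean l c s| := abs_sub _ _
      _ ≤ 4 := by linarith
  have key : ∀ s : Fin 3, |∑ a : Fin m, ∑ b : Fin m, H a b * p r a s * l c b s| ≤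
      2 * √(2 * m) * (∑ a, |p r a s - mean p r s| + ∑ b, |l c b s - mean l c s|) := by
    intro s
    rw [← noe_shift hH (fun a => p r a s) (fun b => l c b s) (mean p r s) (mean l c s)]
    exact noe_one hH (fun a => p r a s - mean p r s) (fun b => l c b s - mean l c s)
      (fun a => hp a s) (fun b => hl b s)
  have e : ∑ a : Fin m, ∑ b : Fin m, H a b * ∑ s, p r a s * l c b s =
      ∑ s : Fin 3, ∑ a : Fin m, ∑ b : Fin m, H a b * p r a s * l c b s := by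
    have e0 : ∀ a : Fin m, ∑ b : Fin m, H a b * ∑ s, p r a s * l c b s =
        ∑ s : Fin 3, ∑ b : Fin m, H a b * p r a s * l c b s := by
      intro a
      simp only [Finset.mul_sum, ← mul_assoc]
      exact Finset.sum_comm
    simp only [e0]
    exact Finset.sum_comm
  rw [e]
  calc |∑ s : Fin 3, ∑ a : Fin m, ∑ b : Fin m, H a b * p r a s * l c b s|
      ≤ ∑ s : Fin 3, |∑ a : Fin m, ∑ b : Fin m, H a b * p r a s * l c b s| :=
        Finset.abs_sum_le_sum_abs _ _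
    _ ≤ ∑ s : Fin 3, 2 * √(2 * m) *
        (∑ a, |p r a s - mean p r s| + ∑ b, |l c b s - mean l c s|) :=
        Finset.sum_le_sum fun s _ => key s
    _ = 2 * √(2 * m) * (∑ a, ∑ s, |p r a s - mean p r s| + ∑ b, ∑ s, |l c b s - mean l c s|) := by
        rw [← Finset.mul_sum, Finset.sum_add_distrib]
        congr 2
        · rw [Finset.sum_comm]
        · rw [Finset.sum_comm]

end Pool.Agent.NPC.R537LR
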